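import Pool.Agent.Q63.CL.Complex

set_option autoImplicit false

/-!
# MP_0ad4be_co: sums of the largest eigenvalues of the connection matrix and the Dirac matrix

`specSum _ k` is the sum of the `k` largest eigenvalues of a real symmetric matrix, `conn G` is
the connection matrix `L` and `dirac G o` the Dirac matrix `D = d + dᵀ` of the finite abstract
simplicial complex `G`, for the orientation of the sets of `G` given by the vertex order and the
signs `o`.
-/

open Matrix Finset Pool.Q63.CL

namespace Pool.Agent.Results.MP_0ad4be_co.DiracComparison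

theorem general {α : Type} [LinearOrder α] (G : Finset (Finset α)) (hG : IsComplex G)
    (o : Finset α → ℝ) (ho : ∀ x, o x = 1 ∨ o x = -1) (d : ℕ) (hd1 : 1 ≤ d)
    (hd : ∀ x ∈ G, x.card ≤ d + 1) (k : ℕ) (hk : k ≤ G.card) :
    (1 / √d) * specSum (dirac_herm G o) k ≤ specSum (conn_herm G) k := by
  have hd0 : (0 : ℝ) < d := by exact_mod_cast hd1
  refine main G hG o ho d hd (fun m => if m = 1 then 1 else if m ≤ d then 1 / 2 else 0)
    (fun m => if m ≤ d then 1 / (2 * m) else 1 / m) _ (by simp) ?_ ?_ ?_ ?_ k hk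
  · intro m hm hm'
    have h0 : (0 : ℝ) < m := by exact_mod_cast (by omega : 0 < m)
    have h1 : m ≠ 1 := by omega
    simp only [h1, if_false]
    split_ifs
    · field_simp; ring
    · field_simp; ring
  · intro m _ _
    split_ifs <;> norm_num
  · intro m hm _
    have h0 : (0 : ℝ) < m := by exact_mod_cast (by omega : 0 < m)
    split_ifs <;> positivity
  · intro m hm hm'
    have hc : (1 / √(d : ℝ)) ^ 2 = 1 / d := by
      rw [div_pow, one_pow, Real.sq_sqrt hd0.le]
    rw [hc]
    have hm0 : (0 : ℝ) < m := by exact_mod_cast (by omega : 0 < m)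
    have hmd : (m : ℝ) ≤ d := by exact_mod_cast hm'
    have hd1' : (1 : ℝ) ≤ d := by exact_mod_cast hd1
    rcases Nat.lt_or_ge m 2 with h | h
    · have : m = 1 := by omega
      subst this
      rcases Nat.lt_or_ge d 2 with h' | h'
      · have : d = 1 := by omega
        subst this
        norm_num
      · have e : (1 + 1 : ℕ) ≤ d := h'
        rw [if_pos rfl, if_pos e]
        push_cast
        rw [div_le_iff₀ hd0]
        norm_num
        exact hd1
    · rw [if_neg (by omega), if_pos hm']
      rcases Nat.lt_or_ge m d with h' | h'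
      · rw [if_pos (by omega : m + 1 ≤ d)]
        have hmd' : (m : ℝ) + 1 ≤ d := by exact_mod_cast h'
        have e : 4 * (1 / 2 : ℝ) * (1 / (2 * ((m + 1 : ℕ) : ℝ))) = 1 / ((m : ℝ) + 1) := by
          push_cast; field_simp; ring
        rw [e]
        exact one_div_le_one_div_of_le (by positivity) hmd'
      · have : m = d := by omega
        subst this
        rw [if_neg (by omega)]
        have e : 4 * (1 / 2 : ℝ) * (1 / ((m + 1 : ℕ) : ℝ)) = 2 / ((m : ℝ) + 1) := by
          push_cast; ring
        rw [e, div_le_div_iff₀ hm0 (by positivity)]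
        linarith

theorem small {α : Type} [LinearOrder α] (G : Finset (Finset α)) (hG : IsComplex G)
    (o : Finset α → ℝ) (ho : ∀ x, o x = 1 ∨ o x = -1) (d : ℕ) (hd1 : 1 ≤ d) (hd4 : d ≤ 4)
    (hd : ∀ x ∈ G, x.card ≤ d + 1) (k : ℕ) (hk : k ≤ G.card) :
    (2 / √(3 * d - 1)) * specSum (dirac_herm G o) k ≤ specSum (conn_herm G) k := by
  have hc : (2 / √(3 * (d : ℝ) - 1)) ^ 2 = 4 / (3 * d - 1) := by
    have : (0 : ℝ) ≤ 3 * d - 1 := by
      have : (1 : ℝ) ≤ d := by exact_mod_cast hd1
      linarith
    rw [div_pow, Real.sq_sqrt this]; norm_num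
  interval_cases d
  · refine main G hG o ho 1 hd (fun m => if m = 1 then 1 else 0) (fun _ => 1 / 2) _ (by simp)
      ?_ ?_ ?_ ?_ k hk
    · intro m h h'
      have : m = 2 := by omega
      subst this; norm_num
    · intro m h h'; split_ifs <;> norm_num
    · intro m h h'; norm_num
    · intro m h h'
      have : m = 1 := by omega
      subst this
      rw [hc]; norm_num
  · refine main G hG o ho 2 hd (fun m => if m = 1 then 1 else if m = 2 then 3 / 5 else 0)
      (fun m => if m = 2 then 1 / 5 else 1 / 3) _ (by simp) ?_ ?_ ?_ ?_ k hk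
    · intro m h h'
      obtain rfl | rfl : m = 2 ∨ m = 3 := by omega
      all_goals norm_num
    · intro m h h'; split_ifs <;> norm_num
    · intro m h h'; split_ifs <;> norm_num
    · intro m h h'
      rw [hc]
      obtain rfl | rfl : m = 1 ∨ m = 2 := by omega
      all_goals norm_num
  · refine main G hG o ho 3 hd (fun m => if m = 1 then 1 else if m = 2 then 3 / 4 else
      if m = 3 then 1 / 2 else 0)
      (fun m => if m = 2 then 1 / 8 else if m = 3 then 1 / 6 else 1 / 4) _ (by simp)
      ?_ ?_ ?_ ?_ k hk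
    · intro m h h'
      obtain rfl | rfl | rfl : m = 2 ∨ m = 3 ∨ m = 4 := by omega
      all_goals norm_num
    · intro m h h'; split_ifs <;> norm_num
    · intro m h h'; split_ifs <;> norm_num
    · intro m h h'
      rw [hc]
      obtain rfl | rfl | rfl : m = 1 ∨ m = 2 ∨ m = 3 := by omega
      all_goals norm_num
  · refine main G hG o ho 4 hd (fun m => if m = 1 then 1 else if m = 2 then 9 / 11 else
      if m = 3 then 2 / 3 else if m = 4 then 5 / 11 else 0)
      (fun m => if m = 2 then 1 / 11 else if m = 3 then 1 / 9 else if m = 4 then 3 / 22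
        else 1 / 5) _ (by simp) ?_ ?_ ?_ ?_ k hk
    · intro m h h'
      obtain rfl | rfl | rfl | rfl : m = 2 ∨ m = 3 ∨ m = 4 ∨ m = 5 := by omega
      all_goals norm_num
    · intro m h h'; split_ifs <;> norm_num
    · intro m h h'; split_ifs <;> norm_num
    · intro m h h'
      rw [hc]
      obtain rfl | rfl | rfl | rfl : m = 1 ∨ m = 2 ∨ m = 3 ∨ m = 4 := by omega
      all_goals norm_num

/-- **MP_0ad4be_co, partial answer to Q1.**  Let `G` be a finite abstract simplicial complex with
vertices in a linearly ordered set, let `o` be any choice of signs (so that the orientations of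
the sets of `G` are arbitrary), let `L` be the connection matrix and `D` the Dirac matrix of `G`,
and let `k ≤ |G|`.

1. If `G` has dimension at most `1`, then `S_k(D) ≤ S_k(L)`, and even `√2 S_k(D) ≤ S_k(L)`.
2. If `G` has dimension at most `d` with `1 ≤ d ≤ 4`, then `(2 / √(3 d - 1)) S_k(D) ≤ S_k(L)`.
3. If `G` has dimension at most `d` with `d ≥ 1`, then `(1 / √d) S_k(D) ≤ S_k(L)`. -/
theorem result {α : Type} [LinearOrder α] (G : Finset (Finset α)) (hG : IsComplex G)
    (o : Finset α → ℝ) (ho : ∀ x, o x = 1 ∨ o x = -1) (k : ℕ) (hk : k ≤ G.card) :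
    ((∀ x ∈ G, x.card ≤ 2) →
      specSum (dirac_herm G o) k ≤ specSum (conn_herm G) k ∧
      √2 * specSum (dirac_herm G o) k ≤ specSum (conn_herm G) k) ∧
    (∀ d : ℕ, 1 ≤ d → d ≤ 4 → (∀ x ∈ G, x.card ≤ d + 1) →
      (2 / √(3 * d - 1)) * specSum (dirac_herm G o) k ≤ specSum (conn_herm G) k) ∧
    (∀ d : ℕ, 1 ≤ d → (∀ x ∈ G, x.card ≤ d + 1) →
      (1 / √d) * specSum (dirac_herm G o) k ≤ specSum (conn_herm G) k) := by
  refine ⟨fun h => ⟨?_, ?_⟩, fun d h1 h4 h => small G hG o ho d h1 h4 h k hk,
    fun d h1 h => general G hG o ho d h1 h k hk⟩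
  · have := general G hG o ho 1 le_rfl h k hk
    simpa using this
  · have := small G hG o ho 1 le_rfl (by norm_num) h k hk
    have e : (2 : ℝ) / √(3 * ((1 : ℕ) : ℝ) - 1) = √2 := by
      have : (3 : ℝ) * ((1 : ℕ) : ℝ) - 1 = 2 := by norm_num
      rw [this]
      exact Real.div_sqrt
    rwa [e] at this

end Pool.Agent.Results.MP_0ad4be_co.DiracComparison
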