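import Pool.Agent.Q63.CL.LamBig

set_option autoImplicit false

/-!
# MP_0ad4be_co: every dimension, as long as the eigenvalues of the connection matrix are large

`specSum _ k` is the sum of the `k` largest eigenvalues of a real symmetric matrix (`eigenvalues₀`
lists the eigenvalues in decreasing order), `conn G` is the connection matrix `L` and `dirac G o`
the Dirac matrix `D = d + dᵀ` of the finite abstract simplicial complex `G`, for the orientation of
the sets of `G` given by the vertex order and the signs `o`.
-/

open Matrix Finset Pool.Q63.CL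

namespace Pool.Agent.Results.MP_0ad4be_co.LargeEigenvalues

/-- **MP_0ad4be_co, partial answer to Q1 in every dimension.**  Let `G` be a finite abstract
simplicial complex of dimension at most `d` (all sets have at most `d + 1` elements), `L` its
connection matrix and `D` its Dirac matrix (any orientation), and let `k ≤ |G|`.

1. If the `k` largest eigenvalues of `L` are at least `d`, then `S_k(D) ≤ S_k(L)`.
2. In particular `S_k(D) ≤ S_k(L)` if `G` contains `k` pairwise disjoint sets with at least `s`
   elements each, where `2 ^ (s - 1) ≥ d`. -/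
theorem result {α : Type} [LinearOrder α] (G : Finset (Finset α)) (hG : IsComplex G)
    (o : Finset α → ℝ) (ho : ∀ x, o x = 1 ∨ o x = -1) (d : ℕ) (hd : ∀ x ∈ G, x.card ≤ d + 1)
    (k : ℕ) (hk : k ≤ G.card) :
    ((∀ i : Fin (Fintype.card G), (i : ℕ) < k → (d : ℝ) ≤ (conn_herm G).eigenvalues₀ i) →
      specSum (dirac_herm G o) k ≤ specSum (conn_herm G) k) ∧
    (∀ s : ℕ, d ≤ 2 ^ (s - 1) → ∀ S : Finset (Finset α), (∀ x ∈ S, x ∈ G ∧ s ≤ x.card) →
      (∀ x ∈ S, ∀ y ∈ S, x ≠ y → Disjoint x y) → k ≤ S.card →
      specSum (dirac_herm G o) k ≤ specSum (conn_herm G) k) :=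
  ⟨fun hl => large hG o ho d hd k hk hl,
    fun s hds S hS hdis hkS => disjoint_case hG o ho d hd s hds S hS hdis k hkS⟩

end Pool.Agent.Results.MP_0ad4be_co.LargeEigenvalues
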