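import Pool.Agent.Q63.CL.Rng

set_option autoImplicit false

/-!
# MP_0ad4be_co: every dimension, `k` at least the number of vertices
-/

open Matrix Finset Pool.Q63.CL

namespace Pool.Agent.Results.MP_0ad4be_co.ManyEigenvalues

variable {α : Type} [LinearOrder α]

theorem even_count (G : Finset (Finset α)) :
    ∑ x, (if par G x = 1 then (1 : ℝ) else 0) = ((G.filter fun x => Even x.card).card : ℝ) := by
  have h := Finset.sum_coe_sort G (fun x : Finset α => if ((-1 : ℝ)) ^ x.card = 1 then (1 : ℝ) else 0)
  have h' : ∑ x, (if par G x = 1 then (1 : ℝ) else 0)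
      = ∑ x : G, (if ((-1 : ℝ)) ^ (x : Finset α).card = 1 then (1 : ℝ) else 0) := rfl
  rw [h', h, Finset.sum_boole]
  congr 2
  ext x
  simp only [mem_filter, neg_one_pow_eq_one_iff_even (by norm_num : (-1 : ℝ) ≠ 1)]

theorem odd_count (G : Finset (Finset α)) :
    ∑ x, (if par G x = -1 then (1 : ℝ) else 0) = ((G.filter fun x => Odd x.card).card : ℝ) := by
  have h := Finset.sum_coe_sort G (fun x : Finset α => if ((-1 : ℝ)) ^ x.card = -1 then (1 : ℝ) else 0)
  have h' : ∑ x, (if par G x = -1 then (1 : ℝ) else 0)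
      = ∑ x : G, (if ((-1 : ℝ)) ^ (x : Finset α).card = -1 then (1 : ℝ) else 0) := rfl
  rw [h', h, Finset.sum_boole]
  congr 2
  ext x
  simp only [mem_filter, neg_one_pow_eq_neg_one_iff_odd (by norm_num : (-1 : ℝ) ≠ 1)]

theorem facetPairs_nonneg (G : Finset (Finset α)) : 0 ≤ facetPairs G := by
  unfold facetPairs
  exact Finset.sum_nonneg fun _ _ => Finset.sum_nonneg fun _ _ => by split_ifs <;> norm_num

theorem facetPairs_le {G : Finset (Finset α)} (hG : IsComplex G) (d : ℕ)
    (hd : ∀ x ∈ G, x.card ≤ d + 1) : facetPairs G ≤ (d + 1) * G.card := by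
  unfold facetPairs
  have h : ∀ x : G, ∑ z : G, (if (z : Finset α) ⊆ x ∧
      (x : Finset α).card = (z : Finset α).card + 1 then (1 : ℝ) else 0) ≤ (d + 1) := by
    intro x
    have hx1 : 1 ≤ (x : Finset α).card := Finset.card_pos.2 (hG.1 _ x.2)
    rcases Nat.lt_or_ge (x : Finset α).card 2 with h | h
    · have : ∑ z : G, (if (z : Finset α) ⊆ x ∧
        (x : Finset α).card = (z : Finset α).card + 1 then (1 : ℝ) else 0) = 0 := by
        refine Finset.sum_eq_zero fun z _ => ?_
        rw [if_neg]
        rintro ⟨-, h'⟩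
        have : 1 ≤ (z : Finset α).card := Finset.card_pos.2 (hG.1 _ z.2)
        omega
      rw [this]; positivity
    · rw [card_facets hG x h]
      exact_mod_cast hd _ x.2
  calc _ ≤ ∑ _x : G, ((d : ℝ) + 1) := Finset.sum_le_sum fun x _ => h x
    _ = (d + 1) * G.card := by
      rw [Finset.sum_const, nsmul_eq_mul, Finset.card_univ, Fintype.card_coe]; ring

theorem main {G : Finset (Finset α)} (hG : IsComplex G) (o : Finset α → ℝ)
    (ho : ∀ x, o x = 1 ∨ o x = -1) (k : ℕ) (hk : k ≤ G.card) (hV : (verts G).card ≤ k)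
    (hF : min (min (k : ℝ) (G.card - k)) (min ((G.filter fun x => Even x.card).card : ℝ)
      ((G.filter fun x => Odd x.card).card : ℝ)) * facetPairs G ≤ (G.card : ℝ) ^ 2) :
    specSum (dirac_herm G o) k ≤ specSum (conn_herm G) k := by
  have h1 := conn_ge_card hG k hk hV
  obtain ⟨h2, h3, h4, h5⟩ := dirac_bounds (G := G) o ho k hk
  rw [even_count] at h4
  rw [odd_count] at h5
  have hf := facetPairs_nonneg G
  have h6 : specSum (dirac_herm G o) k ^ 2 ≤ min (min (k : ℝ) (G.card - k))
      (min ((G.filter fun x => Even x.card).card : ℝ)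
      ((G.filter fun x => Odd x.card).card : ℝ)) * facetPairs G := by
    rcases min_choice (min (k : ℝ) (G.card - k)) (min ((G.filter fun x => Even x.card).card : ℝ)
      ((G.filter fun x => Odd x.card).card : ℝ)) with e | e
    · rw [e]
      rcases min_choice (k : ℝ) (G.card - k) with e' | e' <;> rw [e'] <;> assumption
    · rw [e]
      rcases min_choice ((G.filter fun x => Even x.card).card : ℝ)
        ((G.filter fun x => Odd x.card).card : ℝ) with e' | e' <;> rw [e'] <;> assumption
  have h7 : specSum (dirac_herm G o) k ≤ G.card := by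
    have := abs_le_of_sq_le_sq (h6.trans hF) (Nat.cast_nonneg _)
    exact (le_abs_self _).trans this
  linarith

/-- **MP_0ad4be_co, partial answer to Q1 in every dimension.**  Let `G` be a finite abstract
simplicial complex with `n` sets, of which `V` are vertices, and let `V ≤ k ≤ n`.  Let `L` be the
connection matrix and `D` the Dirac matrix of `G` (any orientation).

1. If `min (k, n - k, p, q) * F ≤ n ^ 2`, where `p` and `q` are the numbers of sets of `G` with an
   even and with an odd number of elements, and `F` is the number of pairs `y ⊂ x` in `G` with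
   `|x| = |y| + 1`, then `S_k(D) ≤ S_k(L)`.
2. In particular, if `G` has dimension at most `d` and `(d + 1) k ≤ n` or `(d + 1) (n - k) ≤ n`,
   then `S_k(D) ≤ S_k(L)`. -/
theorem result {α : Type} [LinearOrder α] (G : Finset (Finset α)) (hG : IsComplex G)
    (o : Finset α → ℝ) (ho : ∀ x, o x = 1 ∨ o x = -1) (k : ℕ) (hk : k ≤ G.card)
    (hV : (G.biUnion id).card ≤ k) :
    (min (min (k : ℝ) (G.card - k)) (min ((G.filter fun x => Even x.card).card : ℝ)
        ((G.filter fun x => Odd x.card).card : ℝ)) * facetPairs G ≤ (G.card : ℝ) ^ 2 →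
      specSum (dirac_herm G o) k ≤ specSum (conn_herm G) k) ∧
    (∀ d : ℕ, (∀ x ∈ G, x.card ≤ d + 1) →
      (d + 1) * k ≤ G.card ∨ (d + 1) * (G.card - k) ≤ G.card →
      specSum (dirac_herm G o) k ≤ specSum (conn_herm G) k) := by
  refine ⟨fun hF => main hG o ho k hk hV hF, fun d hd h => ?_⟩
  refine any_dim hG o ho k hk hV ?_
  have hf := facetPairs_nonneg G
  have hf2 := facetPairs_le hG d hd
  have hkn : (k : ℝ) ≤ G.card := by exact_mod_cast hk
  have hn : (0 : ℝ) ≤ G.card := Nat.cast_nonneg _
  rcases h with h | h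
  · have h' : ((d : ℝ) + 1) * k ≤ G.card := by exact_mod_cast h
    calc min (k : ℝ) (G.card - k) * facetPairs G ≤ k * ((d + 1) * G.card) :=
          mul_le_mul (min_le_left _ _) hf2 hf (Nat.cast_nonneg _)
      _ = ((d + 1) * k) * G.card := by ring
      _ ≤ G.card * G.card := mul_le_mul_of_nonneg_right h' hn
      _ = _ := by ring
  · have h' : ((d : ℝ) + 1) * (G.card - k) ≤ G.card := by
      have : (((d + 1) * (G.card - k) : ℕ) : ℝ) ≤ (G.card : ℝ) := by exact_mod_cast h
      rw [Nat.cast_mul, Nat.cast_sub hk] at this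
      push_cast at this
      exact this
    calc min (k : ℝ) (G.card - k) * facetPairs G ≤ (G.card - k) * ((d + 1) * G.card) :=
          mul_le_mul (min_le_right _ _) hf2 hf (by linarith)
      _ = ((d + 1) * (G.card - k)) * G.card := by ring
      _ ≤ G.card * G.card := mul_le_mul_of_nonneg_right h' hn
      _ = _ := by ring

end Pool.Agent.Results.MP_0ad4be_co.ManyEigenvalues
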