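import Pool.Agent.Q63.CL.TwoDim

set_option autoImplicit false

/-!
# MP_0ad4be_co: complexes of dimension at most two

`specSum _ k` is the sum of the `k` largest eigenvalues of a real symmetric matrix, `conn G` is
the connection matrix `L` and `dirac G o` the Dirac matrix `D = d + dᵀ` of the finite abstract
simplicial complex `G`, for the orientation of the sets of `G` given by the vertex order and the
signs `o`.
-/

open Matrix Finset Pool.Q63.CL

namespace Pool.Agent.Results.MP_0ad4be_co.TwoDimensional

/-- **MP_0ad4be_co, Q1 for all complexes of dimension at most two.**  Let `G` be a finite abstract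
simplicial complex all of whose sets have at most three elements (vertices in a linearly ordered
set), let `o` be any choice of signs (so that the orientations of the sets of `G` are arbitrary),
let `L` be the connection matrix and `D` the Dirac matrix of `G`.  Then `S_k(D) ≤ S_k(L)` for
every `k ≤ |G|`. -/
theorem result {α : Type} [LinearOrder α] (G : Finset (Finset α)) (hG : IsComplex G)
    (o : Finset α → ℝ) (ho : ∀ x, o x = 1 ∨ o x = -1) (h3 : ∀ x ∈ G, x.card ≤ 3)
    (k : ℕ) (hk : k ≤ G.card) :
    specSum (dirac_herm G o) k ≤ specSum (conn_herm G) k :=
  two_dim hG o ho h3 k hk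

end Pool.Agent.Results.MP_0ad4be_co.TwoDimensional
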